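import Pool.Agent.Y920.JB.Stm

/-!
# Project JB, task JB-OPEN: a level from an open subgroup
-/

set_option autoImplicit false

open Topology

namespace Pool.Agent.Y306.JB

open Pool.Agent.Y920.JB

/-- a maximal set without two elements with difference `w` -/
theorem exists_M {Q : Type*} [AddCommGroup Q] (w : Q) (hw : w ≠ 0) :
    ∃ M : Set Q, (∀ x, ¬ (x ∈ M ∧ x + w ∈ M)) ∧ ∀ x, x ∈ M ∨ x + w ∈ M ∨ x - w ∈ M := by
  obtain ⟨M, hM⟩ := zorn_subset {M : Set Q | ∀ x, ¬ (x ∈ M ∧ x + w ∈ M)} (by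
    intro c hc hch
    refine ⟨⋃₀ c, ?_, fun s hs => Set.subset_sUnion_of_mem hs⟩
    rintro x ⟨⟨s, hs, hxs⟩, ⟨s', hs', hxs'⟩⟩
    rcases hch.total hs hs' with h | h
    · exact hc hs' x ⟨h hxs, hxs'⟩
    · exact hc hs x ⟨hxs, h hxs'⟩)
  refine ⟨M, hM.1, fun x => ?_⟩
  by_contra hcon
  push Not at hcon
  obtain ⟨h1, h2, h3⟩ := hcon
  have h4 : insert x M ∈ {M : Set Q | ∀ x, ¬ (x ∈ M ∧ x + w ∈ M)} := by
    rintro y ⟨hy1, hy2⟩
    rcases hy1 with rfl | hy1
    · rcases hy2 with hy2 | hy2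
      · exact hw (by simpa using hy2)
      · exact h2 hy2
    · rcases hy2 with hy2 | hy2
      · apply h3
        have : x - w = y := by rw [← hy2, add_sub_cancel_right]
        rw [this]
        exact hy1
      · exact hM.1 y ⟨hy1, hy2⟩
  exact h1 (hM.2 h4 (Set.subset_insert x M) (Set.mem_insert x M))

theorem t_OPEN : S_OPEN := by
  intro G _ _ _ H hH u hu U h0 h1 h2
  have hw : ((u : G) : G ⧸ H) ≠ 0 := by
    rw [Ne, QuotientAddGroup.eq_zero_iff]
    exact hu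
  obtain ⟨M, hM1, hM2⟩ := exists_M ((u : G) : G ⧸ H) hw
  have hcl : ∀ (x y v : G), v ∈ H → ((x + y + v : G) : G ⧸ H) = (x : G ⧸ H) + (y : G ⧸ H) := by
    intro x y v hv
    have e : ((v : G) : G ⧸ H) = 0 := (QuotientAddGroup.eq_zero_iff v).2 hv
    rw [QuotientAddGroup.mk_add, QuotientAddGroup.mk_add, e, add_zero]
  refine ⟨1, 2, ![0, u], ![0, u, -u], {x : G | (x : G ⧸ H) ∈ M}, (H : Set G), ?_, ?_, ?_, ?_, ?_, ?_⟩
  · rw [isOpen_iff_mem_nhds]
    intro x hx
    have h3 : (fun y : G => y - x) ⁻¹' (H : Set G) ∈ 𝓝 x := by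
      refine (hH.preimage (continuous_id.sub continuous_const)).mem_nhds ?_
      show x - x ∈ H
      rw [sub_self]
      exact H.zero_mem
    refine Filter.mem_of_superset h3 fun y hy => ?_
    have e : (y : G ⧸ H) = (x : G ⧸ H) := by
      have h5 := hcl x 0 (y - x) hy
      have e2 : x + 0 + (y - x) = y := by abel
      rw [e2, QuotientAddGroup.mk_zero, add_zero] at h5
      exact h5
    show (y : G ⧸ H) ∈ M
    rw [e]
    exact hx
  · exact hH.mem_nhds H.zero_mem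
  · intro i
    fin_cases i
    · exact h0
    · exact h1
  · intro k
    fin_cases k
    · exact h0
    · exact h1
    · exact h2
  · intro x
    rcases hM2 (x : G ⧸ H) with h | h | h
    · refine ⟨0, fun v hv => ?_⟩
      show ((x + 0 + v : G) : G ⧸ H) ∈ M
      rw [hcl x 0 v hv, QuotientAddGroup.mk_zero, add_zero]
      exact h
    · refine ⟨1, fun v hv => ?_⟩
      show ((x + u + v : G) : G ⧸ H) ∈ M
      rw [hcl x u v hv]
      exact h
    · refine ⟨2, fun v hv => ?_⟩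
      show ((x + -u + v : G) : G ⧸ H) ∈ M
      rw [hcl x (-u) v hv, QuotientAddGroup.mk_neg, ← sub_eq_add_neg]
      exact h
  · intro x
    have hsub : Subsingleton {i : Fin (1 + 1) // ∃ v ∈ (H : Set G),
        x + (![0, u] : Fin 2 → G) i + v ∈ {x : G | (x : G ⧸ H) ∈ M}} := by
      have key : ¬ ((∃ v ∈ (H : Set G), x + 0 + v ∈ {x : G | (x : G ⧸ H) ∈ M}) ∧
          (∃ v ∈ (H : Set G), x + u + v ∈ {x : G | (x : G ⧸ H) ∈ M})) := by
        rintro ⟨⟨v, hv, h3⟩, ⟨v', hv', h4⟩⟩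
        rw [Set.mem_ofPred_eq, hcl x 0 v hv, QuotientAddGroup.mk_zero, add_zero] at h3
        rw [Set.mem_ofPred_eq, hcl x u v' hv'] at h4
        exact hM1 _ ⟨h3, h4⟩
      refine ⟨?_⟩
      rintro ⟨i, hi⟩ ⟨j, hj⟩
      apply Subtype.ext
      fin_cases i <;> fin_cases j
      · rfl
      · exact absurd ⟨hi, hj⟩ key
      · exact absurd ⟨hj, hi⟩ key
      · rfl
    have hcard : Nat.card {i : Fin (1 + 1) // ∃ v ∈ (H : Set G),
        x + (![0, u] : Fin 2 → G) i + v ∈ {x : G | (x : G ⧸ H) ∈ M}} ≤ 1 :=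
      Finite.card_le_one_iff_subsingleton.2 hsub
    have hcR : (Nat.card {i : Fin (1 + 1) // ∃ v ∈ (H : Set G),
        x + (![0, u] : Fin 2 → G) i + v ∈ {x : G | (x : G ⧸ H) ∈ M}} : ℝ) ≤ 1 := by
      exact_mod_cast hcard
    refine le_trans hcR ?_
    push_cast
    norm_num

end Pool.Agent.Y306.JB
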